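import Pool.Agent.H499R2.CL.Defs
import Pool.Agent.H499R2.CL.PBs
import Pool.Agent.H499R2.CL.B
import Pool.Agent.H499R2.CL.C
import Pool.Agent.H499R2.CL.D
import Pool.Agent.H499R2.CL.M1

/-! Project CZ: the central limit theorem for the `3x+d` maps. Definitions (general `d`, no
positivity in the definitions: windows consist of positive integers anyway). -/

set_option autoImplicit false

namespace Pool.Agent.H499R2.CZ

open Pool.Agent.H320R2.PD Pool.Agent.H499R2.ND Finset Filter Topology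

open Pool.Agent.H319R2.Lln (mu)

/-- forward closed sets of integers -/
def FC (d : ℤ) (R : Set ℤ) : Prop := ∀ x ∈ R, Td d x ∈ R

/-- integers whose trajectory meets `R` -/
def Me (d : ℤ) (R : Set ℤ) : Set ℤ := {x : ℤ | ∃ k : ℕ, (Td d)^[k] x ∈ R}

/-- integers whose trajectory meets `R` within `s` steps (`s` may be negative) -/
def Ea (d : ℤ) (R : Set ℤ) (s : ℤ) : Set ℤ := {x : ℤ | ∃ k : ℕ, (k : ℤ) ≤ s ∧ (Td d)^[k] x ∈ R}

/-- integers whose trajectory meets `R`, but not within `s` steps -/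
def La (d : ℤ) (R : Set ℤ) (s : ℤ) : Set ℤ := {x : ℤ | x ∈ Me d R ∧ x ∉ Ea d R s}

/-- integers whose trajectory meets `R` for the first time at a value of absolute value above `Y` -/
def Bg (d : ℤ) (R : Set ℤ) (Y : ℤ) : Set ℤ := {x : ℤ | ∃ k : ℕ, (Td d)^[k] x ∈ R ∧
  (∀ i < k, (Td d)^[i] x ∉ R) ∧ Y < |(Td d)^[k] x|}

end Pool.Agent.H499R2.CZ
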