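import Pool.Agent.H499R2.CZ.Defs

/-! Project CZ: stubs. Every task goes into its own file `Pool/Agent/H499R2/CZ/<ID>.lean`. -/

set_option autoImplicit false

namespace Pool.Agent.H499R2.CZ

open Pool.Agent.H320R2.PD Pool.Agent.H499R2.ND Finset Filter Topology

open Pool.Agent.H319R2.Lln (mu)

/-! ### Task CZ-A: transitions (adapt CL/A.lean; `BgZ_word` is in CL/O2.lean) -/

theorem La_word {d : ℤ} (hd : Odd d) {R : Set ℤ} (hR : FC d R) {s : ℤ} {w : List ℕ}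
    (hw : ∀ a ∈ w, 1 ≤ a) {M x : ℤ} (hM : Odd M) (hx : Odd x) (hMS : M ∈ La d R s)
    (h : Vw d w M x) : x ∈ La d R (s - w.sum) := by sorry

theorem Ea_word {d : ℤ} (hd : Odd d) {R : Set ℤ} (hR : FC d R) {s : ℤ} {w : List ℕ}
    (hw : ∀ a ∈ w, 1 ≤ a) {M x : ℤ} (hM : Odd M) (hx : Odd x) (hMS : M ∈ Ea d R s)
    (h : Vw d w M x) : x ∈ Ea d R (s - w.sum) ∪ R := by sorry

theorem Bg_word {d : ℤ} (hd : Odd d) {R : Set ℤ} (hR : FC d R) {Y : ℤ} {w : List ℕ}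
    (hw : ∀ a ∈ w, 1 ≤ a) {M x : ℤ} (hM : Odd M) (hx : Odd x) (hMS : M ∈ Bg d R Y)
    (h : Vw d w M x) : x ∈ Bg d R Y ∪ R := by sorry

/-! ### Task CZ-F: all scales with windows (adapt CL/F.lean) -/

theorem all_scalesW {d : ℤ} (hd : Odd d) (hd3 : IsCoprime d 3) :
    ∃ C : ℝ, 0 < C ∧ ∀ K L0 y CQ : ℝ, 4 ≤ K → 0 ≤ CQ → 0 < y →
    1000 ≤ Real.log (y / 2) → ∀ (ι : Type) (S : ι → Set ℤ) (Q : Set ℤ) (ok : ι → ℝ → Prop)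
    (nxt : ι → ℕ → ι),
    (∀ τ A, 0 < A → ok τ A → A ≤ y / 2 → ∀ m : ℕ, PB (S τ) A m 0) →
    (∀ A, 0 < A → 800 ≤ Real.log A → ∀ m : ℕ, (m : ℝ) ^ 2 ≤ Real.log A → PB Q A m (CQ / Real.log A)) →
    (∀ τ A, 0 < A → ok τ A → y / 2 < A → Real.log A ≤ L0 → ∀ T : ℕ,
      |(T : ℝ) - 2 * ⌊Real.log A / 2⌋₊| ≤ wid K L0 (Real.log A) →
        ok (nxt τ T) (A * 3 ^ ⌊Real.log A / 2⌋₊ / 2 ^ T)) →
    (∀ τ, ∀ w : List ℕ, (∀ a ∈ w, 1 ≤ a) → ∀ M x : ℤ, Odd M → Odd x → 0 < M → M ∈ S τ → Vw d w M x →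
      x ∈ S (nxt τ w.sum) ∪ Q) →
    ∀ τ A, y / 2 < A → ok τ A → Real.log A ≤ L0 → ∀ m : ℕ, (m : ℝ) ^ 2 ≤ Real.log A →
      PB (S τ) A m (C * (1 + CQ) / Real.log (y / 2)
        + C * Real.exp (-(K ^ 2 / 32)) * (Real.log A / L0)) := by sorry

/-! ### Tasks CZ-G, CZ-H: tightness (adapt CL/G.lean, CL/H.lean and `BgZ_PB` of CL/O2.lean) -/

theorem late_tight {d : ℤ} (hd : Odd d) (hd3 : IsCoprime d 3) {R : Set ℤ} (hR : FC d R) {η : ℝ}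
    (hη : 0 < η) : ∃ K A0 : ℝ, 1 ≤ K ∧ 0 < A0 ∧
    ∀ A : ℝ, A0 ≤ A → ∀ s : ℤ, Real.log A / mu + K * Real.sqrt (Real.log A) ≤ s → ∀ m : ℕ,
      (m : ℝ) ^ 2 ≤ Real.log A → PB (La d R s) A m η := by sorry

theorem early_tight {d : ℤ} (hd : Odd d) (hd3 : IsCoprime d 3) {R : Set ℤ} (hR : FC d R) (hS : Sp R)
    {η : ℝ} (hη : 0 < η) : ∃ K A0 : ℝ, 1 ≤ K ∧ 0 < A0 ∧
    ∀ A : ℝ, A0 ≤ A → ∀ s : ℤ, (s : ℝ) ≤ Real.log A / mu - K * Real.sqrt (Real.log A) → ∀ m : ℕ,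
      (m : ℝ) ^ 2 ≤ Real.log A → PB (Ea d R s) A m η := by sorry

theorem Bg_PB {d : ℤ} (hd : Odd d) (hd3 : IsCoprime d 3) {R : Set ℤ} (hR : FC d R) (hS : Sp R)
    {η : ℝ} (hη : 0 < η) : ∃ (Y : ℕ) (A0 : ℝ), 0 < A0 ∧
    ∀ A : ℝ, A0 ≤ A → ∀ m : ℕ, (m : ℝ) ^ 2 ≤ Real.log A → PB (Bg d R Y) A m η := by sorry

/-! ### Task CZ-I: invariant sets in classes mod `3^m` (adapt CL/I.lean) -/

theorem class_bound {d : ℤ} (hd : Odd d) (hd3 : IsCoprime d 3) {S : Set ℤ} (hS : Inv d S) {δ : ℝ}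
    (hδ : Tendsto (fun X : ℝ => G S X / X) atTop (𝓝 δ)) {ε : ℝ} (hε : 0 < ε) :
    ∃ A0 : ℝ, 0 < A0 ∧ ∀ A : ℝ, A0 ≤ A → ∀ m : ℕ, (m : ℝ) ^ 2 ≤ Real.log A → PB S A m (δ + ε) := by sorry

/-! ### Task CZ-K: composition of stages (adapt CL/K.lean) -/

theorem compose {d : ℤ} (hd : Odd d) (hd3 : IsCoprime d 3) {N : ℕ} (hN : 20 ≤ N) {ε CQ : ℝ}
    (hε : 0 < ε) (hCQ : 0 ≤ CQ) :
    ∃ A1 : ℝ, 0 < A1 ∧ 1000 ≤ Real.log A1 ∧ ∀ (S : ℤ → Set ℤ) (Q : Set ℤ) (ρ : ℝ → ℝ) (P : ℝ → Prop),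
    (∀ A, 0 < A → 800 ≤ Real.log A → ∀ m : ℕ, (m : ℝ) ^ 2 ≤ Real.log A → PB Q A m (CQ / Real.log A)) →
    (∀ s, ∀ w : List ℕ, (∀ a ∈ w, 1 ≤ a) → ∀ M x : ℤ, Odd M → Odd x → 0 < M → M ∈ S s → Vw d w M x →
      x ∈ S (s - w.sum) ∪ Q) →
    (∀ t, 0 ≤ ρ t) →
    (∀ A, 0 < A → P A → ∀ (s : ℤ) (m : ℕ), (m : ℝ) ^ 2 ≤ Real.log A →
      PB (S s) A m (ρ (s - Real.log A / mu))) →
    ∀ (ks : List ℕ) (cap : ℕ), (∀ k ∈ ks, 3 * k ≤ cap) → ∀ A : ℝ, 0 < A → Gd P N A1 ks A →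
      ∀ (s : ℤ) (m : ℕ), (m : ℝ) ^ 2 ≤ Real.log A →
        PB (S s) A m ((∑ w ∈ FW cap ks.sum, wwt w *
          ρ (s - Real.log A / mu + c0 * ((w.sum : ℝ) - 2 * (ks.sum : ℝ)))) + ks.length * ε) := by sorry

/-! ### Task CZ-P: trajectories of the `3x+d` map are sparse -/

theorem orbit_sp {d : ℤ} (hd : Odd d) (hd3 : IsCoprime d 3) (a : ℤ) :
    Sp {y : ℤ | ∃ j : ℕ, (Td d)^[j] a = y} := by sorry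

/-- finite unions of trajectories are sparse -/
theorem orbits_sp {d : ℤ} (hd : Odd d) (hd3 : IsCoprime d 3) (F : Finset ℤ) :
    Sp {y : ℤ | ∃ a ∈ F, ∃ j : ℕ, (Td d)^[j] a = y} := by sorry

/-! ### Task CZ-M: central limit theorem in windows (adapt CL/M2.lean; uses G H J K L) -/

theorem late_clt {d : ℤ} (hd : Odd d) (hd3 : IsCoprime d 3) {R : Set ℤ} (hR : FC d R) {δ : ℝ} (hδ : 0 ≤ δ)
    (hM : ∀ ε : ℝ, 0 < ε → ∃ A0 : ℝ, 0 < A0 ∧ ∀ A : ℝ, A0 ≤ A → ∀ m : ℕ, (m : ℝ) ^ 2 ≤ Real.log A →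
      PB (Me d R) A m (δ + ε)) (z : ℝ) {ε : ℝ} (hε : 0 < ε) :
    ∃ A0 : ℝ, 0 < A0 ∧ ∀ A : ℝ, A0 ≤ A → ∀ s : ℤ, Real.log A / mu + z * sg * Real.sqrt (Real.log A) ≤ s →
      PB (La d R s) A 0 (δ * (1 - Phi z) + ε) := by sorry

theorem early_clt {d : ℤ} (hd : Odd d) (hd3 : IsCoprime d 3) {R : Set ℤ} (hR : FC d R) (hS : Sp R)
    {δ : ℝ} (hδ : 0 ≤ δ)
    (hM : ∀ ε : ℝ, 0 < ε → ∃ A0 : ℝ, 0 < A0 ∧ ∀ A : ℝ, A0 ≤ A → ∀ m : ℕ, (m : ℝ) ^ 2 ≤ Real.log A →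
      PB (Me d R) A m (δ + ε)) (z : ℝ) {ε : ℝ} (hε : 0 < ε) :
    ∃ A0 : ℝ, 0 < A0 ∧ ∀ A : ℝ, A0 ≤ A → ∀ s : ℤ, (s : ℝ) ≤ Real.log A / mu + z * sg * Real.sqrt (Real.log A) →
      PB (Ea d R s) A 0 (δ * Phi z + ε) := by sorry

end Pool.Agent.H499R2.CZ
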